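import Mathlib
import Pool.Agent.P.MP_1c213c_co.Core

set_option autoImplicit false

namespace Pool.Agent.Results.MP_1c213c_co.DefectLeCoind

/-- `CN(A)`: the common neighbours of all vertices of `A` (so `CN(∅) = V`). -/
def CN {V : Type*} (G : SimpleGraph V) (A : Set V) : Set V := {v | ∀ a ∈ A, G.Adj a v}

/-- `A' ⊎ A''` is a simplex of the box complex `B(G)`. -/
def IsBoxSimplex {V : Type*} (G : SimpleGraph V) (A' A'' : Set V) : Prop :=
  Disjoint A' A'' ∧ (∀ a ∈ A', ∀ b ∈ A'', G.Adj a b) ∧ (CN G A').Nonempty ∧ (CN G A'').Nonempty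

/-- The geometric realisation of `B(G)` in barycentric coordinates: `w.1 v` is the weight of `+v`,
`w.2 v` is the weight of `-v`, and the support of `w` is a simplex of `B(G)`. -/
def BoxSpace {V : Type*} [Fintype V] (G : SimpleGraph V) : Set ((V → ℝ) × (V → ℝ)) :=
  {w | (∀ v, 0 ≤ w.1 v) ∧ (∀ v, 0 ≤ w.2 v) ∧ ∑ v, w.1 v + ∑ v, w.2 v = 1 ∧
    IsBoxSimplex G (Function.support w.1) (Function.support w.2)}

/-- The involution of the realisation of `B(G)` induced by `+v ↔ -v`. -/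
def boxFlip {V : Type*} [Fintype V] (G : SimpleGraph V) (w : BoxSpace G) : BoxSpace G :=
  ⟨(w.1.2, w.1.1), w.2.2.1, w.2.1, (add_comm _ _).trans w.2.2.2.1, w.2.2.2.2.1.symm,
    fun a ha b hb => (w.2.2.2.2.2.1 b hb a ha).symm, w.2.2.2.2.2.2.2, w.2.2.2.2.2.2.1⟩

/-- The coindex of the space `X` with involution `ν`: the supremum of the `d` admitting a
continuous equivariant map `S^d → X`; it is `-1` if there is no such `d`. -/
noncomputable def coind (X : Type*) [TopologicalSpace X] (ν : X → X) : EReal :=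
  sSup ({-1} ∪ {c : EReal | ∃ d : ℕ, c = d ∧
    ∃ f : C(Metric.sphere (0 : EuclideanSpace ℝ (Fin (d + 1))) 1, X), ∀ x, f (-x) = ν (f x)})

/-- A hypergraph is 2-colourable if some 2-colouring has no monochromatic edge. -/
def TwoColorable {W : Type*} (H : Hypergraph W) : Prop :=
  ∃ c : W → Bool, ∀ e ∈ H.edgeSet, ¬ ∃ b, ∀ x ∈ e, c x = b

/-- The hypergraph `(V(H) \ U, {e ∈ E(H) : e ∩ U = ∅})`. -/
def deleteVertices {W : Type*} (H : Hypergraph W) (U : Set W) : Hypergraph W where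
  vertexSet := H.vertexSet \ U
  edgeSet := {e ∈ H.edgeSet | e ∩ U = ∅}
  subset_vertexSet_of_mem_edgeSet' := fun _ he _ hx =>
    ⟨H.subset_vertexSet_of_mem_edgeSet' he.1 hx,
      fun hU => Set.eq_empty_iff_forall_notMem.1 he.2 _ ⟨hx, hU⟩⟩

/-- The 2-colourability defect. -/
noncomputable def cd {W : Type*} (H : Hypergraph W) : ℕ :=
  sInf {k | ∃ U ⊆ H.vertexSet, U.ncard = k ∧ TwoColorable (deleteVertices H U)}

theorem result {V W : Type*} [Fintype V] (G : SimpleGraph V) (H : Hypergraph W)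
    (hfin : H.vertexSet.Finite) (hne : ∀ e ∈ H.edgeSet, e.Nonempty)
    (φ : V → Set W) (hφ : Set.range φ = H.edgeSet)
    (hadj : ∀ u v, u ≠ v → (G.Adj u v ↔ Disjoint (φ u) (φ v))) :
    (cd H : EReal) ≤ coind (BoxSpace G) (boxFlip G) + 2 := by
  classical
  have hmem : ∀ v, φ v ∈ H.edgeSet := fun v => hφ ▸ Set.mem_range_self v
  rcases Nat.lt_or_ge (cd H) 2 with hlt | hge
  · have h1 : (-1 : EReal) ≤ coind (BoxSpace G) (boxFlip G) := le_sSup (Or.inl rfl)
    have h2 : (cd H : EReal) ≤ ((1 : ℕ) : EReal) := by exact_mod_cast Nat.lt_succ_iff.1 hlt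
    refine h2.trans (le_trans ?_ (add_le_add_left h1 2))
    have : ((1 : ℕ) : EReal) = ((-1 + 2 : ℝ) : EReal) := by norm_num
    rw [this]; exact le_of_eq (by norm_cast)
  obtain ⟨d, hd⟩ : ∃ d, cd H = d + 2 := ⟨cd H - 2, by omega⟩
  have hfe : ∀ v, (φ v).Finite := fun v =>
    hfin.subset (H.subset_vertexSet_of_mem_edgeSet' (hmem v))
  have hcd : ∀ U ⊆ hfin.toFinset, U.card ≤ d + 1 → ∀ c : W → Bool,
      ∃ v, (∀ i ∈ (hfe v).toFinset, i ∉ U) ∧ ∃ b, ∀ i ∈ (hfe v).toFinset, c i = b := by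
    intro U hU hcard c
    by_contra hc
    have h1 : cd H ≤ U.card := by
      refine Nat.sInf_le ⟨U, fun i hi => hfin.mem_toFinset.1 (hU hi), Set.ncard_coe_finset U, c, ?_⟩
      rintro e ⟨he, heU⟩ ⟨b, hb⟩
      rw [← hφ] at he
      obtain ⟨v, rfl⟩ := he
      refine hc ⟨v, fun i hi hiU => ?_, b, fun i hi => hb i ((hfe v).mem_toFinset.1 hi)⟩
      exact Set.eq_empty_iff_forall_notMem.1 heU i ⟨(hfe v).mem_toFinset.1 hi, hiU⟩
    omega
  have : Nonempty V := by
    obtain ⟨v, -⟩ := hcd ∅ (Finset.empty_subset _) (by simp) fun _ => true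
    exact ⟨v⟩
  obtain ⟨p, hp, hp0, hp1, hpne, hpdis⟩ := Pool.Agent.P.MP_1c213c_co.sphere_weights
    (fun v => (hfe v).toFinset) (fun v => (hfe v).toFinset_nonempty.2 (hne _ (hmem v)))
    hfin.toFinset (fun v => Set.Finite.toFinset_subset_toFinset.2
      (H.subset_vertexSet_of_mem_edgeSet' (hmem v))) d hcd
  have hAdj : ∀ x v w, p x v ≠ 0 → p (-x) w ≠ 0 → G.Adj v w := by
    intro x v w h1 h2
    have h3 : Disjoint (φ v) (φ w) := Set.Finite.disjoint_toFinset.1 (hpdis x v w h1 h2)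
    refine (hadj v w ?_).2 h3
    rintro rfl
    exact (hne _ (hmem v)).ne_empty (disjoint_self.1 h3)
  have hin : ∀ x, (p x, p (-x)) ∈ BoxSpace G := by
    intro x
    refine ⟨hp0 x, hp0 (-x), hp1 x, ?_, fun a ha b hb => hAdj x a b ha hb, ?_, ?_⟩
    · rw [Set.disjoint_left]
      exact fun a ha ha' => (hAdj x a a ha ha').ne rfl
    · obtain ⟨w, hw⟩ := hpne (-x)
      exact ⟨w, fun a ha => hAdj x a w ha hw⟩
    · obtain ⟨v, hv⟩ := hpne x
      exact ⟨v, fun b hb => (hAdj x v b hv hb).symm⟩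
  have h1 : (d : EReal) ≤ coind (BoxSpace G) (boxFlip G) := by
    refine le_sSup (Or.inr ⟨d, rfl, ⟨fun x => ⟨(p x, p (-x)), hin x⟩,
      (hp.prodMk (hp.comp continuous_neg)).subtype_mk _⟩, fun x => ?_⟩)
    apply Subtype.ext
    change (p (-x), p (- -x)) = (p (-x), p x)
    rw [neg_neg]
  rw [hd]
  push_cast
  exact add_le_add_left h1 2

end Pool.Agent.Results.MP_1c213c_co.DefectLeCoind
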